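import Pool.Agent.Lib.MP_acf5a6_lc.Backward

namespace Pool.Agent.Results.MP_acf5a6_lc.Complete

open Pool.Agent.Lib.MP_acf5a6_lc

/-- TSV is complete for the existential theory of the reals: ETR reduces to TSV and TSV reduces
to ETR by polynomial-time many-one reductions. -/
theorem result :
    N793a5b8e.ManyOneReducible ETR TSV ∧ N793a5b8e.ManyOneReducible TSV ETR :=
  ⟨etr_le_tsv, tsv_le_etr⟩

end Pool.Agent.Results.MP_acf5a6_lc.Complete
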