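import Pool.Agent.Lib.MP_acf5a6_lc.Gp.Red

namespace Pool.Agent.Results.MP_acf5a6_lc.Gap

open Pool.Agent.Lib.MP_acf5a6_lc

/-- Every language between the exact eigenvalue problem for symmetric tensors and the problem
whether some singular value lies within two percent of the given number is hard for the existential
theory of the reals. -/
theorem result (L : N68a2faeb.DecisionProblem) (h1 : ∀ s, SEV s = true → L s = true)
    (h2 : ∀ s, L s = true → ATSV s = true) : N793a5b8e.ManyOneReducible ETR L :=
  Gp.etr_le_gap L h1 h2

/-- Sanity check: the hypotheses hold for the largest language. -/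
theorem atsv_hard : N793a5b8e.ManyOneReducible ETR ATSV :=
  result ATSV Gp.sev_sub_atsv fun _ h => h

end Pool.Agent.Results.MP_acf5a6_lc.Gap
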