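import Pool.Agent.Lib.MP_acf5a6_lc.Hy.Red

namespace Pool.Agent.Results.MP_acf5a6_lc.Hypergraph

open Pool.Agent.Lib.MP_acf5a6_lc

/-- Every language between the eigenvalue problem for adjacency tensors of 3-partite 3-uniform
hypergraphs and the tensor singular value problem is hard for the existential theory of the
reals. -/
theorem result (L : N68a2faeb.DecisionProblem) (h1 : ∀ s, HEV s = true → L s = true)
    (h2 : ∀ s, L s = true → TSV s = true) : N793a5b8e.ManyOneReducible ETR L :=
  Hy.etr_le_sandwich L h1 h2

/-- Sanity check: the hypotheses hold for the smallest language. -/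
theorem hev_hard : N793a5b8e.ManyOneReducible ETR HEV :=
  result HEV (fun _ h => h) Hy.hev_sub_tsv

end Pool.Agent.Results.MP_acf5a6_lc.Hypergraph
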